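import Pool.Agent.H59.L.T97aac3.Q40.SP.Glob

/-!
# Log uniformization for sequences with infinitely many spanning steps
-/

set_option autoImplicit false
set_option linter.unusedVariables false
set_option linter.unusedSectionVars false

universe u v

namespace Pool.Agent.Q40.SP

open MvPolynomial IsLocalRing Pool.Agent.Q40.RP Pool.Agent.TH188.QS Pool.Agent.W418.LU2

section fin

variable {K : Type u} [Field K] {V : ValuationSubring K} {Q : ℕ → Subring K}
  [hloc : ∀ l, IsLocalRing (Q l)] {z : ℕ → K}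

/-- Parameters in which the exceptional parameters are monomials. -/
theorem track (hQs : ∀ l, Q (l + 1) = qt V.toSubring (Q l)) (hmono : Monotone Q)
    (h0 : Q 0 ≤ V.toSubring) (hIC : IC V.toSubring (Q 0)) (hreg : IsRegularLocalRing (Q 0))
    (hz : ∀ l, Zp V (Q l) (Q (l + 1)) (z l)) (l : ℕ) :
    ∃ (ι : Type) (_ : Fintype ι) (x : ι → K), RegP V.toSubring (Q l) x ∧
      ∀ i < l, PMon (Q l) x (z i) := by
  induction l with
  | zero => exact ⟨Empty, inferInstance, Empty.elim, RegP.of_reg h0 hIC hreg, fun i hi => by omega⟩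
  | succ l ih =>
    obtain ⟨ι, _, x, h1, h2⟩ := ih
    obtain ⟨κ, _, x', h3, h4, h5⟩ := regP_step (loc_V V) h1 (hz l).mi
    rw [← hQs] at h3 h4 h5
    refine ⟨κ, inferInstance, x', h3, fun i hi => ?_⟩
    rcases Nat.lt_succ_iff_lt_or_eq.1 hi with h | h
    · exact h4 _ (h2 i h)
    · rw [h]; exact h5

lemma pmon_mn {l : ℕ} {ι : Type} [Fintype ι] {x : ι → K} (hx : ∀ i, x i ≠ 0)
    (h : ∀ i < l, PMon (Q l) x (z i)) {w : K} (hw : w ∈ Mn z l) : PMon (Q l) x w := by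
  unfold Mn at hw
  induction hw using Submonoid.closure_induction with
  | mem w hw =>
    obtain ⟨i, hi, rfl⟩ := hw
    exact h i hi
  | one => exact PMon.one
  | mul a b _ _ ha hb => exact ha.mul hx hb

lemma Mz.pmon {l : ℕ} {ι : Type} [Fintype ι] {x : ι → K} (hx : ∀ i, x i ≠ 0)
    (h : ∀ i < l, PMon (Q l) x (z i)) {w : K} (hw : Mz Q z l w) : PMon (Q l) x w := by
  obtain ⟨u, a, b, hu, ha, hb, rfl⟩ := hw
  exact ((PMon.unit hu.1 hu.2.1 hu.2.2).mul hx (pmon_mn hx h ha)).mul hx (pmon_mn hx h hb).inv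

lemma val_unit {P : Subring K} (hP : P ≤ V.toSubring) {u : K} (h0 : u ≠ 0) (h1 : u ∈ P)
    (h2 : u⁻¹ ∈ P) : V.valuation u = 1 := by
  apply le_antisymm
  · exact (V.valuation_le_one_iff _).2 (hP h1)
  · have h3 := (V.valuation_le_one_iff _).2 (hP h2)
    rw [map_inv₀] at h3
    have h4 : V.valuation u ≠ 0 := (Valuation.ne_zero_iff _).2 h0
    have h5 : 0 < V.valuation u := zero_lt_iff.2 h4
    calc (1 : V.ValueGroup) = V.valuation u * (V.valuation u)⁻¹ := (mul_inv_cancel₀ h4).symm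
      _ ≤ V.valuation u * 1 := mul_le_mul_right h3 _
      _ = V.valuation u := mul_one _

/-- The values of the monomials at a spanning stage. -/
theorem val_pow {l : ℕ} {ι : Type} [Fintype ι] {x : ι → K} (hr : RegP V.toSubring (Q l) x)
    (hs : Spn V (Q l)) {y : K} (hy : y ≠ 0) (hy1 : V.valuation y < 1) :
    ∃ γ : V.ValueGroup, γ ≠ 0 ∧ γ < 1 ∧ ∀ w, PMon (Q l) x w → ∃ e : ℤ, V.valuation w = γ ^ e := by
  classical
  have hm : ∀ i, (x i)⁻¹ ∉ V.toSubring → (⟨x i, hr.mem i⟩ : Q l) ∈ maximalIdeal (Q l) := by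
    intro i hi
    rw [mem_max hr.PA hr.inv]
    exact fun h => hi h.2
  have hm2 : ∀ i, (x i)⁻¹ ∉ V.toSubring → (⟨x i, hr.mem i⟩ : Q l) ∉ maximalIdeal (Q l) ^ 2 := by
    intro i hi h
    have h1 := hr.ind (Pi.single i 1) (fun k hk => by
      by_cases hki : k = i
      · subst hki
        exact absurd (hm k hi) hk
      · rw [Pi.single_eq_of_ne hki]) (by
      rw [Finset.sum_eq_single i]
      · rw [Pi.single_eq_same, one_mul]
        exact h
      · intro k _ hk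
        rw [Pi.single_eq_of_ne hk, zero_mul]
      · intro h
        exact absurd (Finset.mem_univ _) h) i
    rw [Pi.single_eq_same] at h1
    exact (maximalIdeal.isMaximal (Q l)).ne_top ((Ideal.eq_top_iff_one _).2 h1)
  have key : ∃ γ : V.ValueGroup, γ ≠ 0 ∧ γ < 1 ∧ ∀ i, V.valuation (x i) = 1 ∨
      V.valuation (x i) = γ := by
    by_cases h : ∃ i, (x i)⁻¹ ∉ V.toSubring
    · obtain ⟨i₀, hi₀⟩ := h
      refine ⟨V.valuation (x i₀), (Valuation.ne_zero_iff _).2 (hr.ne i₀), ?_, fun i => ?_⟩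
      · by_contra hlt
        rw [not_lt] at hlt
        apply hi₀
        change (x i₀)⁻¹ ∈ V
        rw [← V.valuation_le_one_iff, map_inv₀]
        have h4 : V.valuation (x i₀) ≠ 0 := (Valuation.ne_zero_iff _).2 (hr.ne i₀)
        exact inv_le_one_of_one_le₀ hlt
      · by_cases hi : (x i)⁻¹ ∈ V.toSubring
        · left
          exact val_unit hr.PA (hr.ne i) (hr.mem i) (hr.inv _ (hr.mem i) (hr.ne i) hi)
        · right
          exact hs ⟨x i, hr.mem i⟩ ⟨x i₀, hr.mem i₀⟩ (hm i hi) (hm2 i hi) (hm i₀ hi₀) (hm2 i₀ hi₀)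
    · push Not at h
      exact ⟨V.valuation y, (Valuation.ne_zero_iff _).2 hy, hy1, fun i => Or.inl
        (val_unit hr.PA (hr.ne i) (hr.mem i) (hr.inv _ (hr.mem i) (hr.ne i) (h i)))⟩
  obtain ⟨γ, h0, h1, h2⟩ := key
  refine ⟨γ, h0, h1, ?_⟩
  rintro _ ⟨u, u0, u1, u2, δ, rfl⟩
  have h3 : ∀ s : Finset ι, ∃ e : ℤ, V.valuation (∏ i ∈ s, x i ^ δ i) = γ ^ e := by
    intro s
    induction s using Finset.induction_on with
    | empty => exact ⟨0, by simp⟩
    | insert a s ha ih =>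
      obtain ⟨e, he⟩ := ih
      rw [Finset.prod_insert ha, map_mul, he, map_zpow₀]
      rcases h2 a with h | h
      · exact ⟨e, by rw [h, one_zpow, one_mul]⟩
      · exact ⟨δ a + e, by rw [h, zpow_add₀ h0]⟩
  obtain ⟨e, he⟩ := h3 Finset.univ
  refine ⟨e, ?_⟩
  rw [map_mul, val_unit hr.PA u0 u1 u2, one_mul]
  exact he

lemma zpow_pos' {γ : V.ValueGroup} (h0 : γ ≠ 0) (h1 : γ < 1) {e : ℤ} (h : γ ^ e < 1) : 0 < e := by
  by_contra hcon
  rw [not_lt] at hcon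
  obtain ⟨m, hm⟩ := Int.eq_ofNat_of_zero_le (a := -e) (by omega)
  have h2 : e = -(m : ℤ) := by omega
  rw [h2, zpow_neg, zpow_natCast] at h
  have h3 : γ ^ m ≤ 1 := pow_le_one₀ (zero_le) h1.le
  have h4 : (1 : V.ValueGroup) ≤ (γ ^ m)⁻¹ := (one_le_inv₀ (zero_lt_iff.2 (pow_ne_zero m h0))).2 h3
  exact absurd h (not_lt.2 h4)

variable (hz : ∀ l, Zp V (Q l) (Q (l + 1)) (z l))
  (hinf : ∀ N, ∃ p, N ≤ p ∧ PerfectField (ResidueField (Q p)) ∧ Spn V (Q p))
  (hmono : Monotone Q) (hreg : ∀ l, IsRegularLocalRing (Q l))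
  (hfr : ∀ w : K, ∃ a ∈ Q 0, ∃ b ∈ Q 0, b ≠ 0 ∧ w = a * b⁻¹)
  (hQs : ∀ l, Q (l + 1) = qt V.toSubring (Q l))
  (hQV : ∀ l, Q l ≤ V.toSubring) (hIC : ∀ l, IC V.toSubring (Q l))

include hz hinf hmono hreg hfr hQs hQV hIC

/-- Commensurable values. -/
theorem comm (x y : K) (hx : x ≠ 0) (hy : y ≠ 0) (hx1 : V.valuation x < 1)
    (hy1 : V.valuation y < 1) :
    ∃ a b : ℕ, 0 < a ∧ 0 < b ∧ V.valuation (x ^ a) = V.valuation (y ^ b) := by
  have hn : ∀ l, IsNoetherianRing (Q l) := fun l => by have := hreg l; infer_instance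
  obtain ⟨l1, h1⟩ := exists_mz hz hinf hmono hn hfr hx
  obtain ⟨l2, h2⟩ := exists_mz hz hinf hmono hn hfr hy
  obtain ⟨p, hp, -, hs⟩ := hinf (max l1 l2)
  obtain ⟨ι, _, t, hr, ht⟩ := track hQs hmono (hQV 0) (hIC 0) (hreg 0) hz p
  obtain ⟨γ, h0, hγ1, h3⟩ := val_pow hr hs hx hx1
  obtain ⟨e, he⟩ := h3 x ((h1.mono hmono (le_trans (le_max_left _ _) hp)).pmon hr.ne ht)
  obtain ⟨e', he'⟩ := h3 y ((h2.mono hmono (le_trans (le_max_right _ _) hp)).pmon hr.ne ht)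
  have hpe : 0 < e := zpow_pos' h0 hγ1 (by rw [← he]; exact hx1)
  have hpe' : 0 < e' := zpow_pos' h0 hγ1 (by rw [← he']; exact hy1)
  obtain ⟨a, rfl⟩ := Int.eq_ofNat_of_zero_le hpe.le
  obtain ⟨b, rfl⟩ := Int.eq_ofNat_of_zero_le hpe'.le
  refine ⟨b, a, by exact_mod_cast hpe', by exact_mod_cast hpe, ?_⟩
  rw [map_pow, map_pow, he, he', zpow_natCast, zpow_natCast, ← pow_mul, ← pow_mul, mul_comm]

/-- Log uniformization. -/
theorem gp_spn {A : Subring K} (hA : A ≤ V.toSubring) {l0 : ℕ} {g0 : K}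
    (hFg : Fg V A (Q l0) g0) : GP V A := by
  classical
  have hn : ∀ l, IsNoetherianRing (Q l) := fun l => by have := hreg l; infer_instance
  -- the denominators
  have hden : ∀ l, ∃ g h : K, ∃ m : ℕ, Fg V A (Q (l0 + l)) g ∧ g = g0 ^ m * h ∧
      Mz Q z (l0 + l) h := by
    intro l
    induction l with
    | zero => exact ⟨g0, 1, 1, hFg, by rw [pow_one, mul_one], Mz.one⟩
    | succ l ih =>
      obtain ⟨g, h, m, hg, hgh, hm⟩ := ih
      have := hn (l0 + l)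
      obtain ⟨g', u, m', u0, u1, u2, hg', hFg'⟩ := hg.step hA (hz (l0 + l)).mi
      rw [← hQs (l0 + l)] at hFg'
      refine ⟨g', h ^ m' * (u * z (l0 + l)), m * m', hFg', ?_, ?_⟩
      · rw [hg', hgh, mul_pow, ← pow_mul]
        ring
      · have h1 : Mz Q z (l0 + l + 1) (h ^ m') := (hm.pow m').mono hmono (Nat.le_succ _)
        have h2 : Mz Q z (l0 + l + 1) u :=
          (Mz.unit (l := l0 + l) ⟨u0, u1, u2⟩).mono hmono (Nat.le_succ _)
        exact h1.mul (h2.mul (Mz.mn (z_mem _)))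
  intro G H hGf hHf hG hH
  -- large stages
  have hG' : ∃ N, ∀ w ∈ insert g0 G, ∀ l, N ≤ l → Mz Q z l w := by
    have hch : ∀ w : K, ∃ l, w ∈ insert g0 G → Mz Q z l w := by
      intro w
      by_cases hw : w ∈ insert g0 G
      · have hw0 : w ≠ 0 := by
          rcases hw with rfl | hw
          · exact hFg.2.1
          · exact (hG w hw).1
        obtain ⟨l, hl⟩ := exists_mz hz hinf hmono hn hfr hw0
        exact ⟨l, fun _ => hl⟩
      · exact ⟨0, fun h => absurd h hw⟩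
    choose nn hnn using hch
    refine ⟨(hGf.insert g0).toFinset.sup nn, fun w hw l hl => (hnn w hw).mono hmono ?_⟩
    exact le_trans (Finset.le_sup ((hGf.insert g0).mem_toFinset.2 hw)) hl
  have hH' : ∃ N, ∀ w ∈ H, ∀ l, N ≤ l → w ∈ Q l := by
    have hch : ∀ w : K, ∃ l, w ∈ H → w ∈ Q l := by
      intro w
      by_cases hw : w ∈ H
      · obtain ⟨l, hl⟩ := exists_mem hz hinf hmono hn hfr hIC (hH w hw).1
        exact ⟨l, fun _ => hl⟩
      · exact ⟨0, fun h => absurd h hw⟩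
    choose nn hnn using hch
    refine ⟨hHf.toFinset.sup nn, fun w hw l hl => hmono ?_ (hnn w hw)⟩
    exact le_trans (Finset.le_sup (hHf.mem_toFinset.2 hw)) hl
  obtain ⟨N, hN⟩ := hG'
  obtain ⟨N', hN'⟩ := hH'
  obtain ⟨g, h, m, hg, hgh, hm⟩ := hden (N + N')
  obtain ⟨ι, _, t, hr, ht⟩ := track hQs hmono (hQV 0) (hIC 0) (hreg 0) hz (l0 + (N + N'))
  refine ⟨ι, inferInstance, t, Q (l0 + (N + N')), g, hr, hg, ?_, fun w hw =>
    (hN w (Or.inr hw) _ (by omega)).pmon hr.ne ht, fun w hw => hN' w hw _ (by omega)⟩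
  rw [hgh]
  exact (((hN g0 (Or.inl rfl) _ (by omega)).pow m).mul hm).pmon hr.ne ht

end fin

section main

variable {K : Type u} [Field K] {V : ValuationSubring K} {Q : ℕ → Subring K}

/-- The regular local ring is not a field. -/
lemma nontriv (hreg0 : IsRegularLocalRing (Q 0)) (hne : ¬ IsField (Q 0))
    (hQ0 : Q 0 ≤ V.toSubring) (hIC0 : IC V.toSubring (Q 0)) :
    ∃ y ∈ Q 0, y ≠ 0 ∧ V.valuation y < 1 := by
  have h1 : maximalIdeal (Q 0) ≠ ⊥ := by
    intro h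
    exact hne (isField_iff_maximalIdeal_eq.2 h)
  obtain ⟨y, hy, hy0⟩ := Submodule.exists_mem_ne_zero_of_ne_bot h1
  refine ⟨y, y.2, fun h => hy0 (Subtype.ext h), ?_⟩
  have h2 := (mem_max hQ0 hIC0 y).1 hy
  by_contra hlt
  rw [not_lt] at hlt
  have h3 : (y : K) ≠ 0 := fun h => hy0 (Subtype.ext h)
  apply h2
  refine ⟨h3, ?_⟩
  change (y : K)⁻¹ ∈ V
  rw [← V.valuation_le_one_iff, map_inv₀]
  exact inv_le_one_of_one_le₀ hlt

/-- The main theorem. -/
theorem main (hreg0 : IsRegularLocalRing (Q 0)) (hne : ¬ IsField (Q 0))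
    (hfr : ∀ w : K, ∃ a ∈ Q 0, ∃ b ∈ Q 0, b ≠ 0 ∧ w = a * b⁻¹) (hQ0 : Q 0 ≤ V.toSubring)
    (hIC0 : IC V.toSubring (Q 0)) (hQs : ∀ l, Q (l + 1) = qt V.toSubring (Q l))
    (hinf : ∀ N, ∃ p, N ≤ p ∧ ∀ _ : IsLocalRing (Q p), PerfectField (ResidueField (Q p)) ∧
      Spn V (Q p)) :
    (∀ l, IsRegularLocalRing (Q l)) ∧ (∀ w, w ∈ V ↔ ∃ l, w ∈ Q l) ∧
      (∀ x y : K, x ≠ 0 → y ≠ 0 → V.valuation x < 1 → V.valuation y < 1 →
        ∃ a b : ℕ, 0 < a ∧ 0 < b ∧ V.valuation (x ^ a) = V.valuation (y ^ b)) ∧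
      ∀ A : Subring K, A ≤ V.toSubring → IsNoetherianRing A → ∀ (l0 : ℕ) (g0 : K),
        Fg V A (Q l0) g0 → LogUnif V A := by
  have hnontriv := nontriv hreg0 hne hQ0 hIC0
  obtain ⟨hmono, hall⟩ := seq_all hQs hQ0 hIC0 hreg0 hnontriv
  have hreg : ∀ l, IsRegularLocalRing (Q l) := fun l => (hall l).2.2.1
  have hloc : ∀ l, IsLocalRing (Q l) := fun l => (hreg l).toIsLocalRing
  have hzp : ∀ l, ∃ z, Zp V (Q l) (Q (l + 1)) z := fun l =>
    exists_zp (hQs l) (hall l).1 (hall l).2.1 (hall l).2.2.2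
  choose z hz using hzp
  have hinf' : ∀ N, ∃ p, N ≤ p ∧ PerfectField (ResidueField (Q p)) ∧ Spn V (Q p) := by
    intro N
    obtain ⟨p, hp, h⟩ := hinf N
    exact ⟨p, hp, h (hloc p)⟩
  have hQV := fun l => (hall l).1
  have hIC := fun l => (hall l).2.1
  have hn : ∀ l, IsNoetherianRing (Q l) := fun l => by have := hreg l; infer_instance
  refine ⟨hreg, fun w => ⟨fun hw => exists_mem hz hinf' hmono hn hfr hIC hw, ?_⟩,
    comm hz hinf' hmono hreg hfr hQs hQV hIC, ?_⟩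
  · rintro ⟨l, hl⟩
    exact hQV l hl
  · intro A hA hAn l0 g0 hFg
    exact (gp_spn hz hinf' hmono hreg hfr hQs hQV hIC hA hFg).logUnif hA

end main

end Pool.Agent.Q40.SP
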