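import Pool.Agent.H59.L.T97aac3.Q40.SP.Seq
import Pool.Agent.H59.L.T97aac3.Q40.RP.Main

/-!
# The valuation ring and log uniformization
-/

set_option autoImplicit false
set_option linter.unusedVariables false
set_option linter.unusedSectionVars false

universe u v

namespace Pool.Agent.Q40.SP

open MvPolynomial IsLocalRing Pool.Agent.Q40.RP Pool.Agent.TH188.QS Pool.Agent.W418.LU2

section glob

variable {K : Type u} [Field K] {V : ValuationSubring K} {Q : ℕ → Subring K}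
  [hloc : ∀ l, IsLocalRing (Q l)] {z : ℕ → K}

/-- units -/
def Un (P : Subring K) (w : K) : Prop := w ≠ 0 ∧ w ∈ P ∧ w⁻¹ ∈ P

lemma Un.mul {P : Subring K} {a b : K} (ha : Un P a) (hb : Un P b) : Un P (a * b) :=
  ⟨mul_ne_zero ha.1 hb.1, P.mul_mem ha.2.1 hb.2.1, by
    rw [mul_inv]; exact P.mul_mem ha.2.2 hb.2.2⟩

lemma Un.inv {P : Subring K} {a : K} (ha : Un P a) : Un P a⁻¹ :=
  ⟨inv_ne_zero ha.1, ha.2.2, by rw [inv_inv]; exact ha.2.1⟩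

lemma Un.one {P : Subring K} : Un P 1 := ⟨one_ne_zero, P.one_mem, by rw [inv_one]; exact P.one_mem⟩

/-- units times monomials -/
def Mz (Q : ℕ → Subring K) (z : ℕ → K) (l : ℕ) (w : K) : Prop :=
  ∃ u a b, Un (Q l) u ∧ a ∈ Mn z l ∧ b ∈ Mn z l ∧ w = u * a * b⁻¹

lemma Mz.mul {l : ℕ} {w w' : K} (h : Mz Q z l w) (h' : Mz Q z l w') : Mz Q z l (w * w') := by
  obtain ⟨u, a, b, hu, ha, hb, rfl⟩ := h
  obtain ⟨u', a', b', hu', ha', hb', rfl⟩ := h'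
  refine ⟨u * u', a * a', b * b', hu.mul hu', Submonoid.mul_mem _ ha ha',
    Submonoid.mul_mem _ hb hb', ?_⟩
  rw [mul_inv]
  ring

lemma Mz.inv {l : ℕ} {w : K} (h : Mz Q z l w) : Mz Q z l w⁻¹ := by
  obtain ⟨u, a, b, hu, ha, hb, rfl⟩ := h
  refine ⟨u⁻¹, b, a, hu.inv, hb, ha, ?_⟩
  rw [mul_inv, mul_inv, inv_inv]
  ring

lemma Mz.one {l : ℕ} : Mz Q z l 1 :=
  ⟨1, 1, 1, Un.one, Submonoid.one_mem _, Submonoid.one_mem _, by simp⟩

lemma Mz.pow {l : ℕ} {w : K} (h : Mz Q z l w) (m : ℕ) : Mz Q z l (w ^ m) := by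
  induction m with
  | zero => rw [pow_zero]; exact Mz.one
  | succ m ih => rw [pow_succ]; exact ih.mul h

lemma Mz.unit {l : ℕ} {w : K} (h : Un (Q l) w) : Mz Q z l w :=
  ⟨w, 1, 1, h, Submonoid.one_mem _, Submonoid.one_mem _, by simp⟩

lemma Mz.mn {l : ℕ} {w : K} (h : w ∈ Mn z l) : Mz Q z l w :=
  ⟨1, w, 1, Un.one, h, Submonoid.one_mem _, by simp⟩

lemma Mz.mono (hm : Monotone Q) {l l' : ℕ} (hl : l ≤ l') {w : K} (h : Mz Q z l w) :
    Mz Q z l' w := by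
  obtain ⟨u, a, b, hu, ha, hb, rfl⟩ := h
  exact ⟨u, a, b, ⟨hu.1, hm hl hu.2.1, hm hl hu.2.2⟩, mn_mono hl ha, mn_mono hl hb, rfl⟩

lemma un_of_inP {P : Subring K} [IsLocalRing P] {w : K} (hw : w ∈ P) (h : ¬ InP P 1 w) :
    Un P w := by
  have h1 : (⟨w, hw⟩ : P) ∉ maximalIdeal P := fun h' => h ⟨⟨w, hw⟩, rfl, by rwa [pow_one]⟩
  rw [mem_maximalIdeal, mem_nonunits_iff, not_not] at h1
  obtain ⟨c, hc⟩ := isUnit_iff_exists_inv.1 h1
  have h2 : w * (c : K) = 1 := congrArg Subtype.val hc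
  refine ⟨left_ne_zero_of_mul (by rw [h2]; exact one_ne_zero), hw, ?_⟩
  rw [inv_eq_of_mul_eq_one_right h2]
  exact c.2

variable (hz : ∀ l, Zp V (Q l) (Q (l + 1)) (z l))
  (hinf : ∀ N, ∃ p, N ≤ p ∧ PerfectField (ResidueField (Q p)) ∧ Spn V (Q p))

include hz hinf

/-- Principalization. -/
theorem principal {l : ℕ} (hn : IsNoetherianRing (Q l)) {S : Set K} (hS : ∀ s ∈ S, s ∈ Q l)
    (hne : ∃ s ∈ S, s ≠ 0) : ∃ l' M, l ≤ l' ∧ M ∈ Mn z l' ∧ (∀ s ∈ S, s * M⁻¹ ∈ Q l') ∧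
      ∃ s ∈ S, Un (Q l') (s * M⁻¹) := by
  obtain ⟨s, hs, hs0⟩ := hne
  have h1 : ∃ k, ¬ InP (Q l) k s := by
    by_contra hcon
    push Not at hcon
    apply hs0
    have h2 : (⟨s, hS s hs⟩ : Q l) ∈ ⨅ i, maximalIdeal (Q l) ^ i := by
      rw [Ideal.mem_iInf]
      intro i
      exact inP_coe.1 (hcon i)
    rw [Ideal.iInf_pow_eq_bot_of_isLocalRing _ (maximalIdeal.isMaximal (Q l)).ne_top] at h2
    exact congrArg Subtype.val h2
  obtain ⟨k, hk⟩ := h1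
  obtain ⟨m, -, h2⟩ := exists_or hS ⟨s, hs, hk⟩
  obtain ⟨l', M, hl', hM, h3, t, ⟨s', hs', rfl⟩, h4⟩ := or_zero hz hinf m h2
  have h5 : ∀ s ∈ S, s * M⁻¹ ∈ Q l' := by
    intro s hs
    obtain ⟨f, hf, -⟩ := h3 _ ⟨s, hs, rfl⟩
    change (f : K) = s * M⁻¹ at hf
    rw [← hf]
    exact f.2
  exact ⟨l', M, hl', hM, h5, s', hs', un_of_inP (h5 s' hs') h4⟩

variable (hmono : Monotone Q) (hn : ∀ l, IsNoetherianRing (Q l))
  (hfr : ∀ w : K, ∃ a ∈ Q 0, ∃ b ∈ Q 0, b ≠ 0 ∧ w = a * b⁻¹)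

include hmono hn hfr

/-- All elements are monomials up to units. -/
theorem exists_mz {w : K} (hw : w ≠ 0) : ∃ l, Mz Q z l w := by
  have hone : ∀ a ∈ Q 0, a ≠ 0 → ∃ l, Mz Q z l a := by
    intro a ha ha0
    obtain ⟨l, M, -, hM, h1, s, hs, h2⟩ := principal hz hinf (hn 0) (S := {a}) (by
      rintro _ rfl
      exact ha) ⟨a, rfl, ha0⟩
    rw [Set.mem_singleton_iff] at hs
    subst hs
    have hM0 : M ≠ 0 := by
      rintro rfl
      rw [inv_zero, mul_zero] at h2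
      exact h2.1 rfl
    refine ⟨l, s * M⁻¹, M, 1, h2, hM, Submonoid.one_mem _, ?_⟩
    field_simp
  obtain ⟨a, ha, b, hb, hb0, rfl⟩ := hfr w
  obtain ⟨l1, h1⟩ := hone a ha (left_ne_zero_of_mul hw)
  obtain ⟨l2, h2⟩ := hone b hb hb0
  exact ⟨max l1 l2, (h1.mono hmono (le_max_left _ _)).mul (h2.mono hmono (le_max_right _ _)).inv⟩

/-- The valuation ring is the union. -/
theorem exists_mem (hIC : ∀ l, IC V.toSubring (Q l)) {w : K} (hw : w ∈ V) : ∃ l, w ∈ Q l := by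
  obtain ⟨a, ha, b, hb, hb0, rfl⟩ := hfr w
  obtain ⟨l, M, -, hM, h1, s, hs, h2⟩ := principal hz hinf (hn 0) (S := {a, b}) (by
    rintro _ (rfl | rfl)
    · exact ha
    · exact hb) ⟨b, Or.inr rfl, hb0⟩
  have hM0 : M ≠ 0 := by
    rintro rfl
    rw [inv_zero, mul_zero] at h2
    exact h2.1 rfl
  have hA := h1 a (Or.inl rfl)
  have hB := h1 b (Or.inr rfl)
  rcases hs with hs | hs
  · rw [hs] at h2
    have ha0 : a ≠ 0 := left_ne_zero_of_mul h2.1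
    have h3 : b * a⁻¹ ∈ Q l := by
      have h4 : b * a⁻¹ = (b * M⁻¹) * (a * M⁻¹)⁻¹ := by field_simp
      rw [h4]
      exact (Q l).mul_mem hB h2.2.2
    refine ⟨l, ?_⟩
    have h5 : a * b⁻¹ = (b * a⁻¹)⁻¹ := by rw [mul_inv, inv_inv, mul_comm]
    rw [h5] at hw ⊢
    exact hIC l _ h3 (mul_ne_zero hb0 (inv_ne_zero ha0)) hw
  · rw [Set.mem_singleton_iff] at hs
    rw [hs] at h2
    refine ⟨l, ?_⟩
    have h4 : a * b⁻¹ = (a * M⁻¹) * (b * M⁻¹)⁻¹ := by field_simp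
    rw [h4]
    exact (Q l).mul_mem hA h2.2.2

end glob

end Pool.Agent.Q40.SP
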